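import Mathlib

namespace Pool.Agent.Results.MP_12b847_ag.Unbounded

open MvPolynomial Finset

theorem newton (n : ℕ) (x : Fin n → ℝ) (h1 : ∑ i, x i = 0) :
    8 * eval x (esymm (Fin n) ℝ 4) = (∑ i, x i ^ 2) ^ 2 - 2 * ∑ i, x i ^ 4 := by
  have e2 := congrArg (eval x) (mul_esymm_eq_sum (Fin n) ℝ 2)
  have e4 := congrArg (eval x) (mul_esymm_eq_sum (Fin n) ℝ 4)
  rw [show (HasAntidiagonal.antidiagonal 2).filter (fun a : ℕ × ℕ => a.1 < 2) = {(0, 2), (1, 1)}
    by decide] at e2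
  rw [show (HasAntidiagonal.antidiagonal 4).filter (fun a : ℕ × ℕ => a.1 < 4) =
    {(0, 4), (1, 3), (2, 2), (3, 1)} by decide] at e4
  rw [Finset.sum_insert (by decide), Finset.sum_singleton] at e2
  rw [Finset.sum_insert (by decide), Finset.sum_insert (by decide), Finset.sum_insert (by decide),
    Finset.sum_singleton] at e4
  simp [psum, esymm_one, h1] at e2 e4
  linear_combination 2 * e4 - (∑ i, x i ^ 2) * e2

theorem big (n : ℕ) (x : Fin n → ℝ) (h : (∑ i, x i ^ 2) ^ 2 < 2 * ∑ i, x i ^ 4) :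
    ∃ k, ∑ i, x i ^ 2 < 2 * x k ^ 2 := by
  by_contra hn
  push Not at hn
  have : 2 * ∑ i, x i ^ 4 ≤ (∑ i, x i ^ 2) ^ 2 := by
    rw [pow_two (∑ i, x i ^ 2), Finset.mul_sum, Finset.mul_sum]
    refine Finset.sum_le_sum fun i _ => ?_
    nlinarith [hn i, sq_nonneg (x i)]
  linarith

theorem uniq (n : ℕ) (x : Fin n → ℝ) (i j : Fin n) (hi : ∑ i, x i ^ 2 < 2 * x i ^ 2)
    (hj : ∑ i, x i ^ 2 < 2 * x j ^ 2) : i = j := by
  by_contra hij
  have := Finset.add_le_sum (s := Finset.univ) (f := fun i => x i ^ 2) (fun i _ => sq_nonneg _)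
    (Finset.mem_univ i) (Finset.mem_univ j) hij
  linarith

theorem pts (n : ℕ) (hn : 4 ≤ n) (k : Fin n) : ∃ x : Fin n → ℝ, ∑ i, x i = 0 ∧
    (∑ i, x i ^ 2) ^ 2 - 2 * ∑ i, x i ^ 4 = -8 ∧ ∑ i, x i ^ 2 < 2 * x k ^ 2 := by
  have hn' : (4 : ℝ) ≤ n := by exact_mod_cast hn
  have hs : ∀ (s : ℝ) (e : ℕ), ∑ i, (if i = k then s * (n - 1) else -s) ^ e =
      (s * (n - 1)) ^ e + (n - 1) * (-s) ^ e := by
    intro s e
    rw [← Finset.add_sum_erase _ _ (Finset.mem_univ k), if_pos rfl,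
      Finset.sum_congr rfl (g := fun _ => (-s) ^ e)
        (fun i hi => by rw [if_neg (Finset.ne_of_mem_erase hi)]),
      Finset.sum_const, Finset.card_erase_of_mem (Finset.mem_univ k), Finset.card_univ,
      Fintype.card_fin, nsmul_eq_mul, Nat.cast_sub (by omega), Nat.cast_one]
  have hc : (0 : ℝ) < n * (n - 1) * (n - 2) * (n - 3) := by
    have : (0 : ℝ) < n - 3 := by linarith
    have : (0 : ℝ) < n - 2 := by linarith
    have : (0 : ℝ) < n - 1 := by linarith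
    positivity
  obtain ⟨s, hs0, hs4⟩ : ∃ s : ℝ, 0 < s ∧ s ^ 4 = 8 / (n * (n - 1) * (n - 2) * (n - 3)) := by
    refine ⟨√(√(8 / (n * (n - 1) * (n - 2) * (n - 3)))), by positivity, ?_⟩
    rw [show (4 : ℕ) = 2 * 2 from rfl, pow_mul, Real.sq_sqrt (by positivity),
      Real.sq_sqrt (by positivity)]
  rw [eq_div_iff hc.ne'] at hs4
  refine ⟨fun i => if i = k then s * (n - 1) else -s, ?_, ?_, ?_⟩
  · have := hs s 1
    simp only [pow_one] at this
    rw [this]; ring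
  · rw [hs, hs]
    linear_combination -hs4
  · rw [hs]
    simp only [if_true]
    have : 0 < s ^ 2 * ((n - 1) * (n - 2)) :=
      mul_pos (pow_pos hs0 2) (mul_pos (by linarith) (by linarith))
    nlinarith

theorem hom (n k : ℕ) : (esymm (Fin n) ℝ k).totalDegree ≤ k := by
  unfold esymm
  refine totalDegree_finsetSum_le fun t ht => (totalDegree_finsetProd _ _).trans ?_
  simp [totalDegree_X, (Finset.mem_powersetCard.mp ht).2]

theorem aff (n k : ℕ) (hk : 0 < k) (hn : k ≤ n) (i : Fin n) :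
    degreeOf i (esymm (Fin n) ℝ k) ≤ 1 := by
  rw [degreeOf_def, degrees_esymm (Fin n) ℝ hk (by simpa using hn)]
  exact Multiset.nodup_iff_count_le_one.mp Finset.univ.nodup i

theorem result (n : ℕ) (hn : 4 ≤ n) : ∃ P Q : MvPolynomial (Fin n) ℝ,
    (∀ i, degreeOf i P ≤ 1) ∧ (∀ i, degreeOf i Q ≤ 1) ∧ P.totalDegree ≤ 4 ∧ Q.totalDegree ≤ 4 ∧
    (n : ℕ∞) ≤ ENat.card (ConnectedComponents {x : Fin n → ℝ | eval x P = 0 ∧ eval x Q = 0}) := by
  refine ⟨esymm (Fin n) ℝ 1, esymm (Fin n) ℝ 4 + C 1, aff n 1 one_pos (by omega), fun i => ?_,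
    (hom n 1).trans (by norm_num), ?_, ?_⟩
  · refine (degreeOf_add_le _ _ _).trans (max_le (aff n 4 (by norm_num) hn i) ?_)
    rw [degreeOf_C]; norm_num
  · refine (totalDegree_add _ _).trans (max_le (hom n 4) ?_)
    rw [totalDegree_C]; norm_num
  obtain ⟨Z, hZ⟩ : ∃ Z, Z = {x : Fin n → ℝ | eval x (esymm (Fin n) ℝ 1) = 0 ∧
    eval x (esymm (Fin n) ℝ 4 + C 1) = 0} := ⟨_, rfl⟩
  rw [← hZ]
  have hmem : ∀ x, x ∈ Z ↔ ∑ i, x i = 0 ∧ (∑ i, x i ^ 2) ^ 2 - 2 * ∑ i, x i ^ 4 = -8 := by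
    intro x
    rw [hZ, Set.mem_ofPred_eq, esymm_one, map_sum, map_add, eval_C]
    simp only [eval_X]
    refine and_congr_right fun h => ?_
    rw [← newton n x h]
    constructor <;> intro h <;> linarith
  choose y hy using pts n hn
  have hcl : ∀ k, IsClopen {x : Z | ∑ i, x.1 i ^ 2 < 2 * x.1 k ^ 2} := by
    have hop : ∀ k, IsOpen {x : Z | ∑ i, x.1 i ^ 2 < 2 * x.1 k ^ 2} := fun k =>
      (isOpen_lt (f := fun x : Fin n → ℝ => ∑ i, x i ^ 2) (g := fun x => 2 * x k ^ 2)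
        (by fun_prop) (by fun_prop)).preimage continuous_subtype_val
    refine fun k => ⟨⟨?_⟩, hop k⟩
    have : {x : Z | ∑ i, x.1 i ^ 2 < 2 * x.1 k ^ 2}ᶜ =
        ⋃ j ∈ {j | j ≠ k}, {x : Z | ∑ i, x.1 i ^ 2 < 2 * x.1 j ^ 2} := by
      ext x
      simp only [Set.mem_compl_iff, Set.mem_ofPred_eq, Set.mem_iUnion, exists_prop]
      constructor
      · intro h
        obtain ⟨j, hj⟩ := big n x.1 (by linarith [((hmem _).mp x.2).2])
        exact ⟨j, fun e => h (e ▸ hj), hj⟩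
      · rintro ⟨j, hj, h⟩ h'
        exact hj (uniq n _ _ _ h h')
    rw [this]
    exact isOpen_biUnion fun j _ => hop j
  have hinj : Function.Injective fun k : Fin n =>
      ConnectedComponents.mk (⟨y k, (hmem _).mpr ⟨(hy k).1, (hy k).2.1⟩⟩ : Z) := by
    intro i j hij
    have h1 := ConnectedComponents.coe_eq_coe'.mp hij
    have h2 := (hcl j).connectedComponent_subset (x := ⟨y j, _⟩) (hy j).2.2 h1
    exact uniq n _ _ _ (hy i).2.2 h2
  simpa using ENat.card_le_card_of_injective hinj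

end Pool.Agent.Results.MP_12b847_ag.Unbounded
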